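import Mathlib
import Pool.Agent.H.MP_78373f_an.E

set_option autoImplicit false

namespace Pool.Agent.Results.MP_78373f_an.Q1

def Good {X : Type} [NormedAddCommGroup X] (P : Set X) (r : ℝ) : Prop :=
  (∀ x : X, ∃ p ∈ P, ‖x - p‖ ≤ r) ∧ ∀ x ∈ P, ∀ y ∈ P, x ≠ y → 2 ≤ ‖x - y‖

def radii (X : Type) [NormedAddCommGroup X] : Set ℝ :=
  {r | 0 < r ∧ ∃ P : Set X, Good P r}

def latticeRadii (X : Type) [NormedAddCommGroup X] : Set ℝ :=
  {r | 0 < r ∧ ∃ P : AddSubgroup X, Good (P : Set X) r}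

theorem result : ∃ (X : Type) (_ : NormedAddCommGroup X) (_ : NormedSpace ℝ X),
    FiniteDimensional ℝ X ∧ (radii X).Nonempty ∧ (latticeRadii X).Nonempty ∧
      sInf (radii X) < sInf (latticeRadii X) := by
  obtain ⟨X, i1, i2, h0, a, b, a0, hab, h1, h2, h3⟩ := Pool.Agent.H.MP_78373f_an.main
  have hn : (latticeRadii X).Nonempty := ⟨2, two_pos, h2⟩
  refine ⟨X, i1, i2, h0, ⟨a, a0, h1⟩, hn, ?_⟩
  have e1 : sInf (radii X) ≤ a := csInf_le ⟨0, fun r hr => hr.1.le⟩ ⟨a0, h1⟩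
  have e2 : b ≤ sInf (latticeRadii X) := le_csInf hn fun r ⟨_, P, hP⟩ => h3 P r hP.1 hP.2
  linarith

end Pool.Agent.Results.MP_78373f_an.Q1
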